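import Mathlib
import Pool.Agent.TH888.C.Val

set_option autoImplicit false

/-!
# Families `A x * x ^ p - B x * c x ^ p` with `C ^ 2` functions `A`, `B`, `c`
-/

namespace Pool.Agent.Y719.Mer

open Finset Filter Topology MeasureTheory
open Pool.Agent.TH888.R
open Pool.Agent.TH888.C
open Pool.Agent.W66C
open Pool.Agent.W66X (ae_of_exp')
open Pool.Agent.H305R2 (roughPart ff)

/-- the hypotheses on a phase function `p t + log (1 + z t) + H t` with small `z` -/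
lemma cur_of_small {a0 a1 M : ℝ} {p : ℕ} {z z' z'' H H' H'' : ℝ → ℝ}
    (hz : ∀ t ∈ Set.Icc a0 a1, HasDerivAt z (z' t) t)
    (hz' : ∀ t ∈ Set.Icc a0 a1, HasDerivAt z' (z'' t) t)
    (hz'' : ContinuousOn z'' (Set.Icc a0 a1))
    (b0 : ∀ t ∈ Set.Icc a0 a1, |z t| ≤ 1 / 16) (b1 : ∀ t ∈ Set.Icc a0 a1, |z' t| ≤ 1 / 16)
    (b2 : ∀ t ∈ Set.Icc a0 a1, |z'' t| ≤ 1 / 16)
    (hH : ∀ t ∈ Set.Icc a0 a1, HasDerivAt H (H' t) t)
    (hH' : ∀ t ∈ Set.Icc a0 a1, HasDerivAt H' (H'' t) t)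
    (hH'' : ContinuousOn H'' (Set.Icc a0 a1))
    (m0 : ∀ t ∈ Set.Icc a0 a1, |H t| ≤ M) (m1 : ∀ t ∈ Set.Icc a0 a1, |H' t| ≤ M)
    (m2 : ∀ t ∈ Set.Icc a0 a1, |H'' t| ≤ M) :
    Cur a0 a1 (1 + M) H' p (fun t => p * t + Real.log (1 + z t) + H t)
      (fun t => p + z' t / (1 + z t) + H' t)
      (fun t => (z'' t * (1 + z t) - z' t * z' t) / (1 + z t) ^ 2 + H'' t) := by
  have hden : ∀ t ∈ Set.Icc a0 a1, 15 / 16 ≤ 1 + z t ∧ 1 + z t ≤ 17 / 16 := by
    intro t ht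
    have := abs_le.1 (b0 t ht)
    constructor <;> linarith
  have hne : ∀ t ∈ Set.Icc a0 a1, 1 + z t ≠ 0 := fun t ht => by
    have := (hden t ht).1
    have h2 : 0 < 1 + z t := by linarith
    exact h2.ne'
  have hfrac : ∀ t ∈ Set.Icc a0 a1, |z' t / (1 + z t)| ≤ 1 / 8 := by
    intro t ht
    have h1 := (hden t ht).1
    rw [abs_div, div_le_iff₀ (abs_pos.2 (hne t ht)), abs_of_pos (by linarith : 0 < 1 + z t)]
    have := b1 t ht
    linarith
  have hlin : ∀ t : ℝ, HasDerivAt (fun t : ℝ => (p : ℝ) * t) p t := fun t => by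
    simpa using (hasDerivAt_id t).const_mul (p : ℝ)
  refine ⟨⟨fun t ht => ?_, fun t ht => ?_, fun t ht => ?_⟩, fun t ht => ?_, ?_, fun t ht => ?_,
    fun t ht => ?_⟩
  · obtain ⟨g1, g2⟩ := hden t ht
    have h2 : |Real.log (1 + z t)| ≤ 1 := by
      rw [abs_le]
      constructor
      · have h3 := Real.one_sub_inv_le_log_of_pos (show 0 < 1 + z t by linarith)
        have h4 : (1 + z t)⁻¹ ≤ 2 := by
          rw [inv_le_comm₀ (by linarith) (by norm_num)]; linarith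
        linarith
      · have h3 := Real.log_le_sub_one_of_pos (show 0 < 1 + z t by linarith)
        linarith
    have h3 := abs_le.1 (m0 t ht)
    have h4 := abs_le.1 h2
    change |p * t + Real.log (1 + z t) + H t - p * t| ≤ _
    rw [abs_le]
    constructor <;> linarith
  · have h3 : HasDerivAt (fun t => 1 + z t) (z' t) t := (hz t ht).const_add 1
    have h2 := (((hlin t).add (h3.log (hne t ht))).add (hH t ht))
    exact h2
  · have h2 := abs_le.1 (hfrac t ht)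
    have h3 := abs_le.1 (m1 t ht)
    change |p + z' t / (1 + z t) + H' t - p| ≤ _
    rw [abs_le]
    constructor <;> linarith
  · have h4 : HasDerivAt (fun t => 1 + z t) (z' t) t := (hz t ht).const_add 1
    have h3 := ((((hz' t ht).div h4 (hne t ht)).const_add (p : ℝ)).add (hH' t ht))
    exact h3
  · refine ContinuousOn.add ?_ hH''
    have c0 : ContinuousOn z (Set.Icc a0 a1) := fun t ht => (hz t ht).continuousAt.continuousWithinAt
    have c1 : ContinuousOn z' (Set.Icc a0 a1) := fun t ht =>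
      (hz' t ht).continuousAt.continuousWithinAt
    refine ContinuousOn.div ((hz''.mul (continuousOn_const.add c0)).sub (c1.mul c1))
      ((continuousOn_const.add c0).pow 2) fun t ht => pow_ne_zero 2 (hne t ht)
  · have e3 : p + z' t / (1 + z t) + H' t - p - H' t = z' t / (1 + z t) := by ring
    rw [e3]
    exact hfrac t ht
  · have h2 : |(z'' t * (1 + z t) - z' t * z' t) / (1 + z t) ^ 2| ≤ 1 := by
      obtain ⟨h3, h4⟩ := hden t ht
      rw [abs_div, div_le_iff₀ (abs_pos.2 (pow_ne_zero 2 (hne t ht)))]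
      have h5 : 1 / 4 ≤ |(1 + z t) ^ 2| := by
        rw [abs_of_nonneg (sq_nonneg _)]
        nlinarith
      have h6 : |z'' t * (1 + z t) - z' t * z' t| ≤ 1 / 4 := by
        have h7 := b2 t ht
        have h8 := b1 t ht
        have h9 : |z'' t * (1 + z t)| ≤ 1 / 16 * (17 / 16) := by
          rw [abs_mul, abs_of_pos (by linarith : 0 < 1 + z t)]
          exact mul_le_mul h7 h4 (by linarith) (by norm_num)
        have h10 : |z' t * z' t| ≤ 1 / 16 * (1 / 16) := by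
          rw [abs_mul]
          exact mul_le_mul h8 h8 (abs_nonneg _) (by norm_num)
        refine (abs_sub _ _).trans ?_
        linarith
      linarith
    refine (abs_add_le _ _).trans ?_
    linarith [m2 t ht]

lemma contdiff_der' {A : ℝ → ℝ} (h : ContDiff ℝ 2 A) :
    (∀ x, HasDerivAt A (deriv A x) x) ∧
    (∀ x, HasDerivAt (deriv A) (deriv (deriv A) x) x) ∧
    Continuous (deriv (deriv A)) := by
  have h1 : ContDiffOn ℝ 1 (deriv A) Set.univ :=
    h.contDiffOn.deriv_of_isOpen isOpen_univ (by norm_num)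
  have h2 : ContDiffOn ℝ 0 (deriv (deriv A)) Set.univ :=
    h1.deriv_of_isOpen isOpen_univ (by norm_num)
  refine ⟨fun x => ?_, fun x => ?_, ?_⟩
  · exact ((h.differentiable (by norm_num)) x).hasDerivAt
  · exact (((contDiffOn_univ.1 h1).differentiable (by norm_num)) x).hasDerivAt
  · exact continuousOn_univ.1 h2.continuousOn

/-- the derivative of `R t * ρ t ^ p` -/
noncomputable def z1 (R ρ : ℝ → ℝ) (p : ℕ) (t : ℝ) : ℝ :=
  deriv R t * ρ t ^ p + R t * ((p : ℝ) * ρ t ^ (p - 1) * deriv ρ t)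

/-- the second derivative of `R t * ρ t ^ p` -/
noncomputable def z2 (R ρ : ℝ → ℝ) (p : ℕ) (t : ℝ) : ℝ :=
  (deriv (deriv R) t * ρ t ^ p + deriv R t * ((p : ℝ) * ρ t ^ (p - 1) * deriv ρ t)) +
    (deriv R t * ((p : ℝ) * ρ t ^ (p - 1) * deriv ρ t) +
      R t * (((p : ℝ) * (((p - 1 : ℕ) : ℝ) * ρ t ^ (p - 2) * deriv ρ t)) * deriv ρ t +
        (p : ℝ) * ρ t ^ (p - 1) * deriv (deriv ρ) t))

/-- the perturbation `R t * ρ t ^ p` and its derivatives are eventually small on compact sets -/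
lemma small_pert {R ρ : ℝ → ℝ} (hR : ContDiff ℝ 2 R) (hρ : ContDiff ℝ 2 ρ)
    (hρ1 : ∀ t, 0 < t → |ρ t| < 1) {a0 a1 : ℝ} (ha0 : 0 < a0) (ha : a0 ≤ a1) :
    ∀ᶠ p : ℕ in atTop,
      (∀ t ∈ Set.Icc a0 a1, HasDerivAt (fun t => R t * ρ t ^ p) (z1 R ρ p t) t) ∧
      (∀ t ∈ Set.Icc a0 a1, HasDerivAt (z1 R ρ p) (z2 R ρ p t) t) ∧
      ContinuousOn (z2 R ρ p) (Set.Icc a0 a1) ∧
      (∀ t ∈ Set.Icc a0 a1, |R t * ρ t ^ p| ≤ 1 / 16) ∧
      (∀ t ∈ Set.Icc a0 a1, |z1 R ρ p t| ≤ 1 / 16) ∧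
      (∀ t ∈ Set.Icc a0 a1, |z2 R ρ p t| ≤ 1 / 16) := by
  obtain ⟨r1, r2, r3⟩ := contdiff_der' hR
  obtain ⟨s1, s2, s3⟩ := contdiff_der' hρ
  set R1 := deriv R with hR1
  set R2 := deriv (deriv R) with hR2
  set ρ1 := deriv ρ with hρ1d
  set ρ2 := deriv (deriv ρ) with hρ2d
  have cR : Continuous R := hR.continuous
  have cρ : Continuous ρ := hρ.continuous
  have cR1 : Continuous R1 := continuous_iff_continuousAt.2 fun t => (r2 t).continuousAt
  have cρ1 : Continuous ρ1 := continuous_iff_continuousAt.2 fun t => (s2 t).continuousAt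
  obtain ⟨K0, hK0⟩ := isCompact_Icc.exists_bound_of_continuousOn (s := Set.Icc a0 a1) (f := R)
    cR.continuousOn
  obtain ⟨K1, hK1⟩ := isCompact_Icc.exists_bound_of_continuousOn (s := Set.Icc a0 a1) (f := R1)
    cR1.continuousOn
  obtain ⟨K2, hK2⟩ := isCompact_Icc.exists_bound_of_continuousOn (s := Set.Icc a0 a1) (f := R2)
    r3.continuousOn
  obtain ⟨K3, hK3⟩ := isCompact_Icc.exists_bound_of_continuousOn (s := Set.Icc a0 a1) (f := ρ1)
    cρ1.continuousOn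
  obtain ⟨K4, hK4⟩ := isCompact_Icc.exists_bound_of_continuousOn (s := Set.Icc a0 a1) (f := ρ2)
    s3.continuousOn
  have haI : a0 ∈ Set.Icc a0 a1 := ⟨le_rfl, ha⟩
  have k0 : 0 ≤ K0 := (norm_nonneg _).trans (hK0 a0 haI)
  have k1 : 0 ≤ K1 := (norm_nonneg _).trans (hK1 a0 haI)
  have k2 : 0 ≤ K2 := (norm_nonneg _).trans (hK2 a0 haI)
  have k3 : 0 ≤ K3 := (norm_nonneg _).trans (hK3 a0 haI)
  have k4 : 0 ≤ K4 := (norm_nonneg _).trans (hK4 a0 haI)
  -- a uniform bound for `|ρ|`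
  obtain ⟨t0, ht0, hmax⟩ := isCompact_Icc.exists_isMaxOn (s := Set.Icc a0 a1) ⟨a0, haI⟩
    (f := fun t => |ρ t|) cρ.abs.continuousOn
  set r := max |ρ t0| (1 / 2) with hr
  have hr0 : 0 < r := lt_of_lt_of_le (by norm_num) (le_max_right _ _)
  have hr1 : r < 1 := max_lt (hρ1 t0 (ha0.trans_le ht0.1)) (by norm_num)
  have hρr : ∀ t ∈ Set.Icc a0 a1, |ρ t| ≤ r := fun t ht => (hmax ht).trans (le_max_left _ _)
  set K := K0 + K2 + 2 * (K1 * K3) + K0 * (K3 * K3) + K0 * K4 + K1 + K0 * K3 with hK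
  have hKn : 0 ≤ K := by positivity
  have hlim : Tendsto (fun p : ℕ => (K / r ^ 2) * ((p : ℝ) ^ 2 * r ^ p)) atTop (𝓝 0) := by
    have h1 := tendsto_pow_const_mul_const_pow_of_abs_lt_one 2 (r := r)
      (by rw [abs_of_pos hr0]; exact hr1)
    have h2 := h1.const_mul (K / r ^ 2)
    rwa [mul_zero] at h2
  filter_upwards [hlim.eventually_le_const (show (0 : ℝ) < 1 / 16 by norm_num),
    eventually_ge_atTop 2] with p hp hp2
  obtain ⟨n, rfl⟩ : ∃ n, p = n + 2 := ⟨p - 2, by omega⟩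
  have hpr : (2 : ℝ) ≤ ((n + 2 : ℕ) : ℝ) := by exact_mod_cast hp2
  set q : ℝ := ((n + 2 : ℕ) : ℝ) with hq
  have hmain : K * (q ^ 2 * r ^ n) ≤ 1 / 16 := by
    refine le_trans (le_of_eq ?_) hp
    rw [pow_add]
    field_simp
  -- bounds for the powers
  have hpow : ∀ t ∈ Set.Icc a0 a1, ∀ m : ℕ, n ≤ m → |ρ t ^ m| ≤ r ^ n := by
    intro t ht m hm
    rw [abs_pow]
    calc |ρ t| ^ m ≤ r ^ m := pow_le_pow_left₀ (abs_nonneg _) (hρr t ht) _
      _ ≤ r ^ n := pow_le_pow_of_le_one hr0.le hr1.le hm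
  have hrn : 0 ≤ r ^ n := by positivity
  have hq1 : 1 ≤ q := by linarith
  have hqq : q ≤ q ^ 2 := by nlinarith
  have h1q : 1 ≤ q ^ 2 := by nlinarith
  -- generic estimate
  have hterm : ∀ (C x y : ℝ), 0 ≤ C → |x| ≤ C → |y| ≤ q ^ 2 * r ^ n →
      |x * y| ≤ C * (q ^ 2 * r ^ n) := by
    intro C x y hC hx hy
    rw [abs_mul]
    exact mul_le_mul hx hy (abs_nonneg _) hC
  have hy0 : ∀ t ∈ Set.Icc a0 a1, |ρ t ^ (n + 2)| ≤ q ^ 2 * r ^ n := fun t ht => by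
    refine (hpow t ht _ (by omega)).trans ?_
    nlinarith
  have hy1 : ∀ t ∈ Set.Icc a0 a1, |q * ρ t ^ (n + 1)| ≤ q ^ 2 * r ^ n := fun t ht => by
    rw [abs_mul, abs_of_nonneg (by linarith : 0 ≤ q)]
    exact mul_le_mul hqq (hpow t ht _ (by omega)) (abs_nonneg _) (by positivity)
  have hy2 : ∀ t ∈ Set.Icc a0 a1, |q * (((n + 1 : ℕ) : ℝ) * ρ t ^ n)| ≤ q ^ 2 * r ^ n := fun t ht => by
    have e1 : (((n + 1 : ℕ) : ℝ)) ≤ q := by rw [hq]; push_cast; linarith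
    have e2 : (0 : ℝ) ≤ ((n + 1 : ℕ) : ℝ) := Nat.cast_nonneg _
    rw [abs_mul, abs_mul, abs_of_nonneg (by linarith : 0 ≤ q), abs_of_nonneg e2, ← mul_assoc, sq]
    exact mul_le_mul (mul_le_mul_of_nonneg_left e1 (by linarith)) (hpow t ht _ le_rfl)
      (abs_nonneg _) (by positivity)
  have ez1 : z1 R ρ (n + 2) = fun t => R1 t * ρ t ^ (n + 2) + R t * (q * ρ t ^ (n + 1) * ρ1 t) := rfl
  have ez2 : z2 R ρ (n + 2) = fun t => (R2 t * ρ t ^ (n + 2) + R1 t * (q * ρ t ^ (n + 1) * ρ1 t)) +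
      (R1 t * (q * ρ t ^ (n + 1) * ρ1 t) +
        R t * ((q * (((n + 1 : ℕ) : ℝ) * ρ t ^ n * ρ1 t)) * ρ1 t + q * ρ t ^ (n + 1) * ρ2 t)) := rfl
  rw [ez1, ez2]
  refine ⟨fun t _ => ?_, fun t _ => ?_, ?_, fun t ht => ?_, fun t ht => ?_, fun t ht => ?_⟩
  · have h1 : HasDerivAt (fun t => ρ t ^ (n + 2)) (q * ρ t ^ (n + 1) * ρ1 t) t := by
      have := (s1 t).fun_pow (n + 2)
      simpa [hq] using this
    exact (r1 t).mul h1
  · have h1 : HasDerivAt (fun t => ρ t ^ (n + 2)) (q * ρ t ^ (n + 1) * ρ1 t) t := by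
      have := (s1 t).fun_pow (n + 2)
      simpa [hq] using this
    have h2 : HasDerivAt (fun t => ρ t ^ (n + 1)) (((n + 1 : ℕ) : ℝ) * ρ t ^ n * ρ1 t) t := by
      have := (s1 t).fun_pow (n + 1)
      simpa using this
    exact ((r2 t).mul h1).add ((r1 t).mul ((h2.const_mul q).mul (s2 t)))
  · exact Continuous.continuousOn (by fun_prop)
  · refine (hterm K0 _ _ k0 (hK0 t ht) (hy0 t ht)).trans (le_trans ?_ hmain)
    refine mul_le_mul_of_nonneg_right ?_ (by positivity)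
    have g1 : 0 ≤ K1 * K3 := by positivity
    have g2 : 0 ≤ K0 * (K3 * K3) := by positivity
    have g3 : 0 ≤ K0 * K4 := by positivity
    have g4 : 0 ≤ K0 * K3 := by positivity
    rw [hK]; linarith
  · have e1 : R1 t * ρ t ^ (n + 2) + R t * (q * ρ t ^ (n + 1) * ρ1 t) =
        R1 t * ρ t ^ (n + 2) + (R t * ρ1 t) * (q * ρ t ^ (n + 1)) := by ring
    change |R1 t * ρ t ^ (n + 2) + R t * (q * ρ t ^ (n + 1) * ρ1 t)| ≤ _
    rw [e1]
    have f1 := hterm K1 _ _ k1 (hK1 t ht) (hy0 t ht)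
    have f2 := hterm (K0 * K3) (R t * ρ1 t) _ (by positivity) (by
      rw [abs_mul]; exact mul_le_mul (hK0 t ht) (hK3 t ht) (abs_nonneg _) k0) (hy1 t ht)
    refine (abs_add_le _ _).trans ((add_le_add f1 f2).trans (le_trans ?_ hmain))
    rw [← add_mul]
    refine mul_le_mul_of_nonneg_right ?_ (by positivity)
    have g1 : 0 ≤ K1 * K3 := by positivity
    have g2 : 0 ≤ K0 * (K3 * K3) := by positivity
    have g3 : 0 ≤ K0 * K4 := by positivity
    rw [hK]; linarith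
  · have e1 : (R2 t * ρ t ^ (n + 2) + R1 t * (q * ρ t ^ (n + 1) * ρ1 t)) +
      (R1 t * (q * ρ t ^ (n + 1) * ρ1 t) +
        R t * ((q * (((n + 1 : ℕ) : ℝ) * ρ t ^ n * ρ1 t)) * ρ1 t + q * ρ t ^ (n + 1) * ρ2 t)) =
        R2 t * ρ t ^ (n + 2) + (2 * (R1 t * ρ1 t)) * (q * ρ t ^ (n + 1)) +
        (R t * (ρ1 t * ρ1 t)) * (q * (((n + 1 : ℕ) : ℝ) * ρ t ^ n)) +
        (R t * ρ2 t) * (q * ρ t ^ (n + 1)) := by ring
    change |(R2 t * ρ t ^ (n + 2) + R1 t * (q * ρ t ^ (n + 1) * ρ1 t)) +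
      (R1 t * (q * ρ t ^ (n + 1) * ρ1 t) +
        R t * ((q * (((n + 1 : ℕ) : ℝ) * ρ t ^ n * ρ1 t)) * ρ1 t + q * ρ t ^ (n + 1) * ρ2 t))| ≤ _
    rw [e1]
    have f1 := hterm K2 _ _ k2 (hK2 t ht) (hy0 t ht)
    have f2 := hterm (2 * (K1 * K3)) (2 * (R1 t * ρ1 t)) _ (by positivity) (by
      rw [abs_mul, abs_mul, abs_of_pos (by norm_num : (0 : ℝ) < 2)]
      exact mul_le_mul_of_nonneg_left (mul_le_mul (hK1 t ht) (hK3 t ht) (abs_nonneg _) k1)
        (by norm_num)) (hy1 t ht)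
    have f3 := hterm (K0 * (K3 * K3)) (R t * (ρ1 t * ρ1 t)) _ (by positivity) (by
      rw [abs_mul, abs_mul]
      exact mul_le_mul (hK0 t ht) (mul_le_mul (hK3 t ht) (hK3 t ht) (abs_nonneg _) k3)
        (by positivity) k0) (hy2 t ht)
    have f4 := hterm (K0 * K4) (R t * ρ2 t) _ (by positivity) (by
      rw [abs_mul]; exact mul_le_mul (hK0 t ht) (hK4 t ht) (abs_nonneg _) k0) (hy1 t ht)
    refine (abs_add_le _ _).trans ((add_le_add ((abs_add_le _ _).trans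
      (add_le_add ((abs_add_le _ _).trans (add_le_add f1 f2)) f3)) f4).trans (le_trans ?_ hmain))
    rw [← add_mul, ← add_mul, ← add_mul]
    refine mul_le_mul_of_nonneg_right ?_ (by positivity)
    have g4 : 0 ≤ K0 * K3 := by positivity
    rw [hK]; linarith

end Pool.Agent.Y719.Mer
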