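import Mathlib
import Pool.Agent.Y719.Mer.Cur

set_option autoImplicit false

/-!
# The statements along `C ^ 2` curves, on open sets
-/

namespace Pool.Agent.Y719.Mer

open Finset Filter Topology MeasureTheory
open Pool.Agent.TH888.R
open Pool.Agent.TH888.C
open Pool.Agent.W66C
open Pool.Agent.W66X (ae_of_exp')
open Pool.Agent.H305R2 (roughPart ff)

/-- the statements for globally defined functions -/
theorem pt_glob {A B c : ℝ → ℝ} (hA : ContDiff ℝ 2 A) (hB : ContDiff ℝ 2 B) (hc : ContDiff ℝ 2 c)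
    (hpos : ∀ x, 0 < A x) (hcx : ∀ x, 1 < x → |c x| < x) (S : Set ℕ) :
    ∀ᵐ x : ℝ, 1 < x → Pt (fun p => ⌊A x * x ^ p - B x * c x ^ p⌋₊)
      (Real.exp Real.eulerMascheroniConstant / Real.log x) S := by
  set R : ℝ → ℝ := fun t => -(B (Real.exp t) / A (Real.exp t)) with hR
  set ρ : ℝ → ℝ := fun t => c (Real.exp t) * Real.exp (-t) with hρ
  set H : ℝ → ℝ := fun t => Real.log (A (Real.exp t)) with hH
  have hRc : ContDiff ℝ 2 R := ((hB.comp Real.contDiff_exp).div (hA.comp Real.contDiff_exp)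
    (fun t => (hpos _).ne')).neg
  have hρc : ContDiff ℝ 2 ρ := (hc.comp Real.contDiff_exp).mul (Real.contDiff_exp.comp contDiff_neg)
  have hHc : ContDiff ℝ 2 H := (hA.comp Real.contDiff_exp).log (fun t => (hpos _).ne')
  have hρ1 : ∀ t, 0 < t → |ρ t| < 1 := by
    intro t ht
    have h1 := hcx (Real.exp t) (Real.one_lt_exp_iff.2 ht)
    simp only [hρ]
    rw [abs_mul, abs_of_pos (Real.exp_pos _), Real.exp_neg, ← div_eq_mul_inv,
      div_lt_one (Real.exp_pos _)]
    exact h1
  obtain ⟨g1, g2, g3⟩ := contdiff_der' hHc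
  have cH : Continuous H := hHc.continuous
  have cH1 : Continuous (deriv H) := continuous_iff_continuousAt.2 fun t => (g2 t).continuousAt
  have hfam : ∀ a0 a1 : ℝ, (0 : ℝ) < a0 → a0 < a1 → ∃ D : ℝ, 0 ≤ D ∧ ∀ᶠ p : ℕ in atTop,
      Cur a0 a1 D (deriv H) p (fun t => p * t + Real.log (1 + R t * ρ t ^ p) + H t)
        (fun t => p + z1 R ρ p t / (1 + R t * ρ t ^ p) + deriv H t)
        (fun t => (z2 R ρ p t * (1 + R t * ρ t ^ p) - z1 R ρ p t * z1 R ρ p t) /
          (1 + R t * ρ t ^ p) ^ 2 + deriv (deriv H) t) := by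
    intro a0 a1 ha0 ha
    obtain ⟨M0, hM0⟩ := isCompact_Icc.exists_bound_of_continuousOn (s := Set.Icc a0 a1) (f := H)
      cH.continuousOn
    obtain ⟨M1, hM1⟩ := isCompact_Icc.exists_bound_of_continuousOn (s := Set.Icc a0 a1)
      (f := deriv H) cH1.continuousOn
    obtain ⟨M2, hM2⟩ := isCompact_Icc.exists_bound_of_continuousOn (s := Set.Icc a0 a1)
      (f := deriv (deriv H)) g3.continuousOn
    have haI : a0 ∈ Set.Icc a0 a1 := ⟨le_rfl, ha.le⟩
    have k0 : 0 ≤ M0 := (norm_nonneg _).trans (hM0 a0 haI)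
    have k1 : 0 ≤ M1 := (norm_nonneg _).trans (hM1 a0 haI)
    have k2 : 0 ≤ M2 := (norm_nonneg _).trans (hM2 a0 haI)
    refine ⟨1 + (M0 + M1 + M2), by positivity, ?_⟩
    filter_upwards [small_pert hRc hρc hρ1 ha0 ha.le] with p hp
    obtain ⟨e1, e2, e3, e4, e5, e6⟩ := hp
    exact cur_of_small (z := fun t => R t * ρ t ^ p) e1 e2 e3 e4 e5 e6 (fun t _ => g1 t)
      (fun t _ => g2 t) g3.continuousOn (fun t ht => (hM0 t ht).trans (by linarith))
      (fun t ht => (hM1 t ht).trans (by linarith)) (fun t ht => (hM2 t ht).trans (by linarith))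
  have hmeas : ∀ p : ℕ, Measurable (fun t : ℝ => p * t + Real.log (1 + R t * ρ t ^ p) + H t) := by
    intro p
    have mR : Measurable R := hRc.continuous.measurable
    have mρ : Measurable ρ := hρc.continuous.measurable
    have mH : Measurable H := cH.measurable
    fun_prop
  have hlaw := pt_val le_rfl hmeas hfam
    (val := fun p t => A (Real.exp t) * (Real.exp t) ^ p - B (Real.exp t) * c (Real.exp t) ^ p) (by
      intro t ht
      filter_upwards [small_pert hRc hρc hρ1 (a0 := t) (a1 := t) ht le_rfl] with p hp _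
      have h4 := abs_le.1 (hp.2.2.2.1 t ⟨le_rfl, le_rfl⟩)
      have hAt := hpos (Real.exp t)
      have hE : 0 < Real.exp t ^ p := by positivity
      have e0 : (Real.exp (-t)) ^ p * (Real.exp t) ^ p = 1 := by
        rw [← mul_pow, ← Real.exp_add, neg_add_cancel, Real.exp_zero, one_pow]
      have e1 : A (Real.exp t) * (Real.exp t) ^ p - B (Real.exp t) * c (Real.exp t) ^ p =
          A (Real.exp t) * (Real.exp t) ^ p * (1 + R t * ρ t ^ p) := by
        have e2 : A (Real.exp t) * (Real.exp t) ^ p * (1 + R t * ρ t ^ p) =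
            A (Real.exp t) * (Real.exp t) ^ p - (A (Real.exp t) / A (Real.exp t)) *
              B (Real.exp t) * c (Real.exp t) ^ p * ((Real.exp (-t)) ^ p * (Real.exp t) ^ p) := by
          simp only [hR, hρ]
          rw [mul_pow]
          ring
        rw [e2, e0, div_self hAt.ne', one_mul, mul_one]
      have h5 : 0 < 1 + R t * ρ t ^ p := by linarith [h4.1]
      have h6 : 0 < A (Real.exp t) * (Real.exp t) ^ p := mul_pos hAt hE
      rw [e1]
      refine ⟨mul_pos h6 h5, ?_⟩
      rw [Real.log_mul h6.ne' h5.ne', Real.log_mul hAt.ne' hE.ne', Real.log_pow, Real.log_exp]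
      ring) S
  have hfin := ae_of_exp' (P := fun x : ℝ => 1 < x →
    Pt (fun p => ⌊A x * x ^ p - B x * c x ^ p⌋₊)
      (Real.exp Real.eulerMascheroniConstant / Real.log x) S) (by
    filter_upwards [hlaw] with t ht hx
    have h1 : 0 < t := Real.one_lt_exp_iff.1 hx
    rw [Real.log_exp]
    exact ht h1)
  filter_upwards [hfin] with x hx h1
  exact hx (by linarith) h1

/-- **The statements along a `C ^ 2` curve over an open set of bases.** -/
theorem pt_open {U : Set ℝ} (hU : IsOpen U) (hU1 : ∀ x ∈ U, 1 < x) {A B c : ℝ → ℝ}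
    (hA : ContDiffOn ℝ 2 A U) (hB : ContDiffOn ℝ 2 B U) (hc : ContDiffOn ℝ 2 c U)
    (hpos : ∀ x ∈ U, 0 < A x) (hcx : ∀ x ∈ U, |c x| < x) (S : Set ℕ) :
    ∀ᵐ x : ℝ, x ∈ U → Pt (fun p => ⌊A x * x ^ p - B x * c x ^ p⌋₊)
      (Real.exp Real.eulerMascheroniConstant / Real.log x) S := by
  rw [ae_iff]
  refine measure_null_of_locally_null _ fun x0 hx0 => ?_
  rw [Set.mem_ofPred_eq, Classical.not_imp] at hx0
  obtain ⟨ε, hε, hball⟩ := Metric.isOpen_iff.1 hU x0 hx0.1
  let χ : ContDiffBump x0 := ⟨ε / 4, ε / 2, by positivity, by linarith⟩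
  have hts : tsupport χ ⊆ U := by
    rw [χ.tsupport_eq]
    exact (Metric.closedBall_subset_ball (show ε / 2 < ε by linarith)).trans hball
  have hmul : ∀ f : ℝ → ℝ, ContDiffOn ℝ 2 f U → ContDiff ℝ 2 (fun x => χ x * f x) := by
    intro f hf
    refine contDiff_iff_contDiffAt.2 fun x => ?_
    by_cases h1 : x ∈ tsupport χ
    · exact (χ.contDiff.contDiffAt).mul (hf.contDiffAt (hU.mem_nhds (hts h1)))
    · have h2 : (fun x => χ x * f x) =ᶠ[𝓝 x] fun _ => (0 : ℝ) := by
        filter_upwards [(isClosed_tsupport χ).isOpen_compl.mem_nhds h1] with y hy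
        rw [image_eq_zero_of_notMem_tsupport hy, zero_mul]
      exact contDiffAt_const.congr_of_eventuallyEq h2
  have hA' : ContDiff ℝ 2 (fun x => χ x * A x + (1 - χ x)) :=
    (hmul A hA).add (contDiff_const.sub χ.contDiff)
  have hposχ : ∀ x, 0 < χ x * A x + (1 - χ x) := by
    intro x
    by_cases hx : x ∈ U
    · have h1 := hpos x hx
      have h2 : 0 ≤ χ x := χ.nonneg
      have h3 : χ x ≤ 1 := χ.le_one
      rcases h2.eq_or_lt with h | h
      · rw [← h]; norm_num
      · have := mul_pos h h1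
        linarith
    · have h1 : χ x = 0 := by
        by_contra hne
        exact hx (hts (subset_tsupport _ hne))
      rw [h1]; norm_num
  have hcχ : ∀ x, 1 < x → |χ x * c x| < x := by
    intro x hx1
    by_cases hx : x ∈ U
    · have h1 := hcx x hx
      have h2 : 0 ≤ χ x := χ.nonneg
      have h3 : χ x ≤ 1 := χ.le_one
      rw [abs_mul, abs_of_nonneg h2]
      exact (mul_le_of_le_one_left (abs_nonneg _) h3).trans_lt h1
    · have h1 : χ x = 0 := by
        by_contra hne
        exact hx (hts (subset_tsupport _ hne))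
      rw [h1, zero_mul, abs_zero]; linarith
  have hg := pt_glob hA' (hmul B hB) (hmul c hc) hposχ hcχ S
  rw [ae_iff] at hg
  refine ⟨{x | ¬ (x ∈ U → Pt (fun p => ⌊A x * x ^ p - B x * c x ^ p⌋₊)
      (Real.exp Real.eulerMascheroniConstant / Real.log x) S)} ∩ Metric.closedBall x0 (ε / 4),
    inter_mem self_mem_nhdsWithin (mem_nhdsWithin_of_mem_nhds
      (Metric.closedBall_mem_nhds x0 (by positivity))), ?_⟩
  refine measure_mono_null ?_ hg
  rintro x ⟨hx, hxb⟩
  rw [Set.mem_ofPred_eq, Classical.not_imp] at hx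
  rw [Set.mem_ofPred_eq, Classical.not_imp]
  refine ⟨hU1 x hx.1, fun h => hx.2 ?_⟩
  have h1 : χ x = 1 := χ.one_of_mem_closedBall hxb
  rw [h1] at h
  simp only [one_mul, sub_self, add_zero] at h
  exact h

/-- transport along a differentiable map -/
lemma ae_image {U : Set ℝ} {φ : ℝ → ℝ} (hφ : DifferentiableOn ℝ φ U) {Q : ℝ → Prop}
    (h : ∀ᵐ x : ℝ, x ∈ U → Q x) : ∀ᵐ y : ℝ, ∀ x ∈ U, φ x = y → Q x := by
  rw [ae_iff] at h ⊢
  have hE : volume (φ '' {x | ¬ (x ∈ U → Q x)}) = 0 := by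
    refine addHaar_image_eq_zero_of_differentiableOn_of_addHaar_eq_zero volume
      (hφ.mono fun x hx => ?_) h
    rw [Set.mem_ofPred_eq, Classical.not_imp] at hx
    exact hx.1
  refine measure_mono_null ?_ hE
  intro y hy
  rw [Set.mem_ofPred_eq] at hy
  push Not at hy
  obtain ⟨x, hx, hxy, hQ⟩ := hy
  refine ⟨x, ?_, hxy⟩
  rw [Set.mem_ofPred_eq, Classical.not_imp]
  exact ⟨hx, hQ⟩

end Pool.Agent.Y719.Mer
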